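import Pool.Agent.U173.PQ.Defs

/-!
# Common forms of the spaces of Tate classes for all large primes: definitions

`W₀` is the Betti cohomology (with coefficient field `ℚ`, in the intended use), `W ℓ` the `ℓ`-adic
cohomology with coefficients in an algebraic closure of the field of `ℓ`-adic numbers.
-/

set_option autoImplicit false

open CategoryTheory AlgebraicGeometry

universe u

namespace Pool.Agent.U173.CF

open Pool.Agent.H914 Pool.Agent.H914.VarClass Pool.Agent.H914.VarClass.Obj
  Pool.Agent.H914.WeilCohomology Pool.Agent.H281R3.HT Pool.Agent.TH125.Gal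
  Pool.Agent.U173.SL Pool.Agent.U173.PS Pool.Agent.U173.PT Pool.Agent.U173.PQ

variable {k : Type u} [Field k] {𝒱 : VarClass k} {ops : CycleOps 𝒱}

/-- A homomorphism of the coefficient fields and of the cohomology rings. -/
structure Comparison (W₀ W : WeilCohomology.{u, 0} ops) where
  coeff : W₀.K →+* W.K
  map : ∀ A : 𝒱.Obj, W₀.H A →+* W.H A

section Alg

variable {K₀ K A₀ A B₀ B : Type} [Field K₀] [Field K] [Ring A₀] [Algebra K₀ A₀] [Ring A]
  [Algebra K A] [Ring B₀] [Algebra K₀ B₀] [Ring B] [Algebra K B]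

/-- The homomorphism `f` is semilinear, compatible with the degrees, the traces and the cycle classes,
and maps linearly independent elements to linearly independent elements: so `A₀` is a form of its span
in `A`. -/
structure IsFormMap {C : Type u} [AddCommGroup C] (σ : K₀ →+* K) (f : A₀ →+* A)
    (gr₀ : ℕ → Submodule K₀ A₀) (gr : ℕ → Submodule K A) (tr₀ : A₀ →ₗ[K₀] K₀) (tr : A →ₗ[K] K)
    (cl₀ : C →+ A₀) (cl : C →+ A) : Prop where
  smul : ∀ (r : K₀) (a : A₀), f (r • a) = σ r • f a
  graded : ∀ (n : ℕ), ∀ a ∈ gr₀ n, f a ∈ gr n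
  trace : ∀ a : A₀, tr (f a) = σ (tr₀ a)
  cycle : ∀ z : C, f (cl₀ z) = cl z
  independent : ∀ (n : ℕ) (a : Fin n → A₀), LinearIndependent K₀ a →
    LinearIndependent K fun i => f (a i)

/-- A commutative square of homomorphisms. -/
def Commutes (g₀ : B₀ →ₐ[K₀] A₀) (g : B →ₐ[K] A) (f : A₀ →+* A) (f' : B₀ →+* B) : Prop :=
  ∀ b, f (g₀ b) = g (f' b)

/-- For all `n` the image under `f` of the set `R n` spans the same space as the Tate classes of
codimension `n` (classes of degree `2 n` which a subgroup of finite index multiplies by the `n`-th power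
of `χ`). -/
def IsFormAct {Γ : Type} [Group Γ] (χ : Γ →* Kˣ) (gr : ℕ → Submodule K A) (ρ : Γ →* (A ≃ₐ[K] A))
    (f : A₀ →+* A) (R : ℕ → Set A₀) : Prop :=
  ∀ n, Submodule.span K (f '' R n) = Submodule.span K {c | IsTateAct χ gr ρ n c}

end Alg

/-- The comparison is compatible with the structures on the cohomology, with the classes of cycles and
with pull-backs. -/
structure IsComparison {W₀ W : WeilCohomology.{u, 0} ops} (c : Comparison W₀ W) : Prop where
  isFormMap : ∀ A : 𝒱.Obj, IsFormMap c.coeff (c.map A) (W₀.gr A) (W.gr A) (W₀.tr A) (W.tr A)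
    (W₀.cl A) (W.cl A)
  pull : ∀ {A B : 𝒱.Obj} (f : A ⟶ B), Commutes (W₀.map f) (W.map f) (c.map A) (c.map B)

/-- The actions of `Γ` on the cohomology of `A`. -/
def Act (W : WeilCohomology.{u, 0} ops) (Γ : Type) [Group Γ] (A : 𝒱.Obj) : Type :=
  Γ →* (W.H A ≃ₐ[W.K] W.H A)

/-- The pull-back by `f` is compatible with the actions. -/
def Compatible {W : WeilCohomology.{u, 0} ops} {Γ : Type} [Group Γ] {A C : 𝒱.Obj} (f : C ⟶ A)
    (α : Act W Γ A) (γ : Act W Γ C) : Prop :=
  Intertwines (W.map f) α γ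

/-- A variety with actions of the group `Γ` on all the cohomology theories `W ℓ`. -/
structure Model (W : Nat.Primes → WeilCohomology.{u, 0} ops) (Γ : Type) [Group Γ] where
  X : 𝒱.Obj
  act : ∀ ℓ, Act (W ℓ) Γ X

variable {W : Nat.Primes → WeilCohomology.{u, 0} ops} {Γ : Type} [Group Γ]

/-- The variety with the action on the cohomology for one `ℓ`. -/
def Model.at (A : Model W Γ) (ℓ : Nat.Primes) : GVar (W ℓ) Γ := ⟨A.X, A.act ℓ⟩

/-- `V` is the product of `A` and `B`, with actions on the cohomology compatible with the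
projections. -/
inductive IsProduct (A B : Model W Γ) : Model W Γ → Prop
  | mk (υ : ∀ ℓ, Act (W ℓ) Γ (A.X.prod B.X)) :
      (∀ ℓ, Compatible (fst A.X B.X) (A.act ℓ) (υ ℓ)) →
      (∀ ℓ, Compatible (snd A.X B.X) (B.act ℓ) (υ ℓ)) →
      IsProduct A B ⟨A.X.prod B.X, υ⟩

/-- `V` is the product of the varieties `X i`, `i` in the list, and of `Z`. -/
inductive IsTower {I : Type} (X : I → Model W Γ) (Z : Model W Γ) : List I → Model W Γ → Prop
  | nil : IsTower X Z [] Z
  | cons {i : I} {l : List I} {B V : Model W Γ} :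
      IsTower X Z l B → IsProduct (X i) B V → IsTower X Z (i :: l) V

/-- The Tate classes on `A` have a common form for all primes `ℓ ≥ N`: there are sets `R n` of classes in
the cohomology `W₀.H A` such that for all these `ℓ` and all `n` the space of the Tate classes of
codimension `n` in the `ℓ`-adic cohomology is spanned by the image of `R n`. -/
def HasFormFrom {W₀ : WeilCohomology.{u, 0} ops} (c : ∀ ℓ, Comparison W₀ (W ℓ))
    (χ : ∀ ℓ, Γ →* (W ℓ).Kˣ) (N : ℕ) (A : Model W Γ) : Prop :=
  ∃ R : ℕ → Set (W₀.H A.X), ∀ ℓ : Nat.Primes, N ≤ ℓ →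
    IsFormAct (χ ℓ) ((W ℓ).gr A.X) (A.act ℓ) ((c ℓ).map A.X) R

/-- The Tate classes on the varieties `A r`, `r ∈ ℕ` (for example the powers of one variety), have
common forms for all sufficiently large primes. -/
def HaveCommonForm {W₀ : WeilCohomology.{u, 0} ops} (c : ∀ ℓ, Comparison W₀ (W ℓ))
    (χ : ∀ ℓ, Γ →* (W ℓ).Kˣ) (A : ℕ → Model W Γ) : Prop :=
  ∃ N : ℕ, ∀ r, HasFormFrom c χ N (A r)

/-- The cohomology theories are compared with `W₀`, and for all sufficiently large primes `ℓ` and all `r`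
the varieties `X i r`, `Y j r`, `Z r` are a system `IsProductSystem` (with sets of places `P ℓ i`
which may depend on `ℓ`). -/
structure IsFormSystem {W₀ : WeilCohomology.{u, 0} ops} (c : ∀ ℓ, Comparison W₀ (W ℓ)) {I I' : Type}
    (χ : ∀ ℓ, Γ →* (W ℓ).Kˣ) (P : Nat.Primes → I → Set (Place Γ))
    (E L : I → Place Γ → IntermediateField ℚ (AlgebraicClosure ℚ)) (X : I → ℕ → Model W Γ)
    (Y : I' → ℕ → Model W Γ) (Z : ℕ → Model W Γ) (l : List I) (l' : List I') : Prop where
  closed : ∀ ℓ, IsAlgClosed (W ℓ).K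
  comparison : ∀ ℓ, IsComparison (c ℓ)
  system : ∃ N : ℕ, ∀ ℓ : Nat.Primes, N ≤ ℓ → ∀ r,
    IsProductSystem (χ ℓ) (P ℓ) E L (fun i => (X i r).at ℓ) (fun j => (Y j r).at ℓ) ((Z r).at ℓ)
      l l'

end Pool.Agent.U173.CF
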