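import Pool.Agent.U173.PQ.Main
import Pool.Agent.N179.FG.Step
import Pool.Agent.U173.CF.Defs

/-!
# Common forms of the spaces of Tate classes for all large primes
-/

set_option autoImplicit false
set_option linter.unusedSectionVars false

open CategoryTheory AlgebraicGeometry
open scoped TensorProduct

universe u

namespace Pool.Agent.U173.CF

open Pool.Agent.H914 Pool.Agent.H914.VarClass Pool.Agent.H914.VarClass.Obj
  Pool.Agent.H914.WeilCohomology Pool.Agent.H281R3.HT Pool.Agent.TH125.Gal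
  Pool.Agent.U173.SL Pool.Agent.U173.PS Pool.Agent.W552 Pool.Agent.U173.PT Pool.Agent.U173.PQ

variable {k : Type u} [Field k] {𝒱 : VarClass k} {ops : CycleOps 𝒱}

section slices

variable {W : WeilCohomology.{u, 0} ops} {Γ : Type} [Group Γ] {χ : Γ →* W.Kˣ}

/-- the functional given by a cycle -/
noncomputable def fnl (W : WeilCohomology.{u, 0} ops) (B : 𝒱.Obj) (z : B.Cycles) :
    W.H B →ₗ[W.K] W.K :=
  W.tr B ∘ₗ LinearMap.mulRight W.K (W.cl B z)

theorem fnl_apply (B : 𝒱.Obj) (z : B.Cycles) (b : W.H B) :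
    fnl W B z b = W.tr B (b * W.cl B z) := rfl

/-- slice on the first factor -/
noncomputable def slice₁ (W : WeilCohomology.{u, 0} ops) (A B : 𝒱.Obj) (z : B.Cycles) :
    W.H (A.prod B) →ₗ[W.K] W.H A := Pool.Agent.N179.FG.ctr2 (fnl W B z)

/-- slice on the second factor -/
noncomputable def slice₂ (W : WeilCohomology.{u, 0} ops) (A B : 𝒱.Obj) (z : A.Cycles) :
    W.H (A.prod B) →ₗ[W.K] W.H B := ctr (fnl W A z)

theorem slice₁_apply (A B : 𝒱.Obj) (z : B.Cycles) (a : W.H A) (b : W.H B) :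
    slice₁ W A B z (W.map (fst A B) a * W.map (snd A B) b) = W.tr B (b * W.cl B z) • a :=
  Pool.Agent.N179.FG.ctr2_apply _ _ _

theorem slice₂_apply (A B : 𝒱.Obj) (z : A.Cycles) (a : W.H A) (b : W.H B) :
    slice₂ W A B z (W.map (fst A B) a * W.map (snd A B) b) = W.tr A (a * W.cl A z) • b :=
  ctr_apply _ _ _

theorem slice₁_pull {A B : 𝒱.Obj} {z : B.Cycles} (hz : B.IsCyc B.dim z) (a : W.H A) :
    slice₁ W A B z (W.map (fst A B) a) = (B.V.degCycle z : W.K) • a := by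
  have h := slice₁_apply (W := W) A B z a 1
  rw [map_one, mul_one, one_mul, W.tr_cl hz] at h
  exact h

theorem slice₂_pull {A B : 𝒱.Obj} {z : A.Cycles} (hz : A.IsCyc A.dim z) (b : W.H B) :
    slice₂ W A B z (W.map (snd A B) b) = (A.V.degCycle z : W.K) • b := by
  have h := slice₂_apply (W := W) A B z 1 b
  rw [map_one, one_mul, one_mul, W.tr_cl hz] at h
  exact h

theorem tr_mul_zero {B : 𝒱.Obj} {z : B.Cycles} (hz : B.IsCyc B.dim z) {j : ℕ} {b : W.H B}
    (hb : b ∈ W.gr B j) (hj : j ≠ 0) : b * W.cl B z = 0 := by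
  have h := W.mul_mem hb (W.cl_mem hz)
  rw [W.gr_eq_bot B _ (by omega)] at h
  exact (Submodule.mem_bot _).1 h

theorem slice₁_mem {A B : 𝒱.Obj} {z : B.Cycles} (hz : B.IsCyc B.dim z) {i : ℕ}
    {u : W.H (A.prod B)} (hu : u ∈ W.gr (A.prod B) i) : slice₁ W A B z u ∈ W.gr A i := by
  classical
  rw [← H914.proj_same (W.isInternal _) hu]
  refine W.kunneth_induction (p := fun u => slice₁ W A B z (H914.proj (W.isInternal _) i u) ∈
    W.gr A i) ?_ ?_ u
  · intro x y hx hy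
    rw [map_add, map_add]
    exact Submodule.add_mem _ hx hy
  · intro i' j' a ha b hb
    have hmem := W.mul_mem (W.map_mem (fst A B) ha) (W.map_mem (snd A B) hb)
    by_cases h : i' + j' = i
    · rw [← h, H914.proj_same (W.isInternal _) hmem, slice₁_apply]
      by_cases hj : j' = 0
      · subst hj
        rw [add_zero]
        exact Submodule.smul_mem _ _ ha
      · rw [tr_mul_zero hz hb hj, map_zero, zero_smul]
        exact Submodule.zero_mem _
    · rw [H914.proj_ne (W.isInternal _) hmem h, map_zero]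
      exact Submodule.zero_mem _

theorem slice₂_mem {A B : 𝒱.Obj} {z : A.Cycles} (hz : A.IsCyc A.dim z) {i : ℕ}
    {u : W.H (A.prod B)} (hu : u ∈ W.gr (A.prod B) i) : slice₂ W A B z u ∈ W.gr B i := by
  classical
  rw [← H914.proj_same (W.isInternal _) hu]
  refine W.kunneth_induction (p := fun u => slice₂ W A B z (H914.proj (W.isInternal _) i u) ∈
    W.gr B i) ?_ ?_ u
  · intro x y hx hy
    rw [map_add, map_add]
    exact Submodule.add_mem _ hx hy
  · intro i' j' a ha b hb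
    have hmem := W.mul_mem (W.map_mem (fst A B) ha) (W.map_mem (snd A B) hb)
    by_cases h : i' + j' = i
    · rw [← h, H914.proj_same (W.isInternal _) hmem, slice₂_apply]
      by_cases hj : i' = 0
      · subst hj
        rw [zero_add]
        exact Submodule.smul_mem _ _ hb
      · rw [tr_mul_zero hz ha hj, map_zero, zero_smul]
        exact Submodule.zero_mem _
    · rw [H914.proj_ne (W.isInternal _) hmem h, map_zero]
      exact Submodule.zero_mem _

/-- the functional is invariant under a subgroup of finite index -/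
theorem fnl_act {B : GVar W Γ} (hB : IsGaloisVar χ B) {z : B.X.Cycles}
    (hz : B.X.IsCyc B.X.dim z) {g : Γ}
    (hg : B.act g (W.cl B.X z) = (χ g : W.K) ^ B.X.dim • W.cl B.X z) (b : W.H B.X) :
    W.tr B.X (B.act g b * W.cl B.X z) = W.tr B.X (b * W.cl B.X z) := by
  have h := hB.tr_act g (b * W.cl B.X z)
  rw [map_mul, hg, mul_smul_comm, map_smul, smul_eq_mul] at h
  exact mul_left_cancel₀ (pow_ne_zero _ (Units.ne_zero (χ g))) h

theorem slice₁_tate {A B : GVar W Γ} (hB : IsGaloisVar χ B) {z : B.X.Cycles}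
    (hz : B.X.IsCyc B.X.dim z) {υ : Γ →* (W.H (A.X.prod B.X) ≃ₐ[W.K] W.H (A.X.prod B.X))}
    (h1 : Intertwines (W.map (fst A.X B.X)) A.act υ)
    (h2 : Intertwines (W.map (snd A.X B.X)) B.act υ) {n : ℕ} {u : W.H (A.X.prod B.X)}
    (hu : IsTateAct χ (W.gr (A.X.prod B.X)) υ n u) :
    IsTateAct χ (W.gr A.X) A.act n (slice₁ W A.X B.X z u) := by
  obtain ⟨hdeg, Δ, hΔ, hfix⟩ := hu
  obtain ⟨Δ', hΔ', hfix'⟩ := hB.cl_fix B.X.dim (W.cl B.X z) ⟨z, hz, rfl⟩
  refine ⟨slice₁_mem hz hdeg, Δ ⊓ Δ', inferInstance, fun g hg => ?_⟩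
  have key : ∀ v : W.H (A.X.prod B.X), A.act g (slice₁ W A.X B.X z v) =
      slice₁ W A.X B.X z (υ g v) := by
    intro v
    refine kun_ext (L := fun v => A.act g (slice₁ W A.X B.X z v))
      (L' := fun v => slice₁ W A.X B.X z (υ g v)) (fun a b => by simp only [map_add])
      (fun a b => by simp only [map_add]) (fun a b => ?_) v
    simp only [slice₁_apply, map_mul, h1 g, h2 g, map_smul]
    rw [fnl_act hB hz (hfix' g hg.2)]
  rw [key, hfix g hg.1, map_smul]

theorem slice₂_tate {A B : GVar W Γ} (hA : IsGaloisVar χ A) {z : A.X.Cycles}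
    (hz : A.X.IsCyc A.X.dim z) {υ : Γ →* (W.H (A.X.prod B.X) ≃ₐ[W.K] W.H (A.X.prod B.X))}
    (h1 : Intertwines (W.map (fst A.X B.X)) A.act υ)
    (h2 : Intertwines (W.map (snd A.X B.X)) B.act υ) {n : ℕ} {u : W.H (A.X.prod B.X)}
    (hu : IsTateAct χ (W.gr (A.X.prod B.X)) υ n u) :
    IsTateAct χ (W.gr B.X) B.act n (slice₂ W A.X B.X z u) := by
  obtain ⟨hdeg, Δ, hΔ, hfix⟩ := hu
  obtain ⟨Δ', hΔ', hfix'⟩ := hA.cl_fix A.X.dim (W.cl A.X z) ⟨z, hz, rfl⟩
  refine ⟨slice₂_mem hz hdeg, Δ ⊓ Δ', inferInstance, fun g hg => ?_⟩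
  have key : ∀ v : W.H (A.X.prod B.X), B.act g (slice₂ W A.X B.X z v) =
      slice₂ W A.X B.X z (υ g v) := by
    intro v
    refine kun_ext (L := fun v => B.act g (slice₂ W A.X B.X z v))
      (L' := fun v => slice₂ W A.X B.X z (υ g v)) (fun a b => by simp only [map_add])
      (fun a b => by simp only [map_add]) (fun a b => ?_) v
    simp only [slice₂_apply, map_mul, h1 g, h2 g, map_smul]
    rw [fnl_act hA hz (hfix' g hg.2)]
  rw [key, hfix g hg.1, map_smul]

/-- pull-backs of Tate classes -/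
theorem pull_tate {A C : GVar W Γ} {f : C.X ⟶ A.X} (hf : Intertwines (W.map f) A.act C.act) {n : ℕ}
    {a : W.H A.X} (ha : IsTateAct χ (W.gr A.X) A.act n a) :
    IsTateAct χ (W.gr C.X) C.act n (W.map f a) := by
  obtain ⟨hdeg, Δ, hΔ, hfix⟩ := ha
  refine ⟨W.map_mem f hdeg, Δ, hΔ, fun g hg => ?_⟩
  rw [hf g, hfix g hg, map_smul]

/-- products of Tate classes -/
theorem mul_tate {C : GVar W Γ} {m n : ℕ} {a b : W.H C.X} (ha : IsTateAct χ (W.gr C.X) C.act m a)
    (hb : IsTateAct χ (W.gr C.X) C.act n b) : IsTateAct χ (W.gr C.X) C.act (m + n) (a * b) := by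
  obtain ⟨hdeg, Δ, hΔ, hfix⟩ := ha
  obtain ⟨hdeg', Δ', hΔ', hfix'⟩ := hb
  refine ⟨?_, Δ ⊓ Δ', inferInstance, fun g hg => ?_⟩
  · rw [mul_add]
    exact W.mul_mem hdeg hdeg'
  · rw [map_mul, hfix g hg.1, hfix' g hg.2, smul_mul_assoc, mul_smul_comm, smul_smul, pow_add]

/-- bilinearity -/
theorem mul_mem_of {A B : 𝒱.Obj} {S : Set (W.H A)} {T : Set (W.H B)}
    {U : Submodule W.K (W.H (A.prod B))}
    (h : ∀ s ∈ S, ∀ t ∈ T, W.map (fst A B) s * W.map (snd A B) t ∈ U) {a : W.H A} {b : W.H B}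
    (ha : a ∈ Submodule.span W.K S) (hb : b ∈ Submodule.span W.K T) :
    W.map (fst A B) a * W.map (snd A B) b ∈ U := by
  induction ha using Submodule.span_induction with
  | mem s hs =>
    induction hb using Submodule.span_induction with
    | mem t ht => exact h s hs t ht
    | zero => rw [map_zero, mul_zero]; exact Submodule.zero_mem _
    | add x y _ _ hx hy => rw [map_add, mul_add]; exact Submodule.add_mem _ hx hy
    | smul r x _ hx => rw [map_smul, mul_smul_comm]; exact Submodule.smul_mem _ _ hx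
  | zero => rw [map_zero, zero_mul]; exact Submodule.zero_mem _
  | add x y _ _ hx hy => rw [map_add, add_mul]; exact Submodule.add_mem _ hx hy
  | smul r x _ hx => rw [map_smul, smul_mul_assoc]; exact Submodule.smul_mem _ _ hx

end slices

section comparison

variable {W₀ W : WeilCohomology.{u, 0} ops} {c : Comparison W₀ W} (hc : IsComparison c)

include hc

theorem IsComparison.smul (A : 𝒱.Obj) (r : W₀.K) (a : W₀.H A) :
    c.map A (r • a) = c.coeff r • c.map A a := (hc.isFormMap A).smul r a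

theorem IsComparison.trace (A : 𝒱.Obj) (a : W₀.H A) : W.tr A (c.map A a) = c.coeff (W₀.tr A a) :=
  (hc.isFormMap A).trace a

theorem IsComparison.map_pull {A B : 𝒱.Obj} (f : A ⟶ B) (b : W₀.H B) :
    c.map A (W₀.map f b) = W.map f (c.map B b) := hc.pull f b

theorem IsComparison.cycle (A : 𝒱.Obj) (z : A.Cycles) : c.map A (W₀.cl A z) = W.cl A z :=
  (hc.isFormMap A).cycle z

theorem comp_slice₁ (A B : 𝒱.Obj) (z : B.Cycles) (u : W₀.H (A.prod B)) :
    c.map A (slice₁ W₀ A B z u) = slice₁ W A B z (c.map (A.prod B) u) := by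
  refine kun_ext (L := fun u => c.map A (slice₁ W₀ A B z u))
    (L' := fun u => slice₁ W A B z (c.map (A.prod B) u)) (fun a b => by simp only [map_add])
    (fun a b => by simp only [map_add]) (fun a b => ?_) u
  simp only [slice₁_apply, hc.smul, map_mul, hc.map_pull]
  rw [← hc.trace, map_mul, hc.cycle]

theorem comp_slice₂ (A B : 𝒱.Obj) (z : A.Cycles) (u : W₀.H (A.prod B)) :
    c.map B (slice₂ W₀ A B z u) = slice₂ W A B z (c.map (A.prod B) u) := by
  refine kun_ext (L := fun u => c.map B (slice₂ W₀ A B z u))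
    (L' := fun u => slice₂ W A B z (c.map (A.prod B) u)) (fun a b => by simp only [map_add])
    (fun a b => by simp only [map_add]) (fun a b => ?_) u
  simp only [slice₂_apply, hc.smul, map_mul, hc.map_pull]
  rw [← hc.trace, map_mul, hc.cycle]

/-- the image of a span -/
theorem comp_span {A : 𝒱.Obj} {S : Set (W₀.H A)} {U : Submodule W.K (W.H A)}
    (h : ∀ s ∈ S, c.map A s ∈ U) {a : W₀.H A} (ha : a ∈ Submodule.span W₀.K S) :
    c.map A a ∈ U := by
  induction ha using Submodule.span_induction with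
  | mem s hs => exact h s hs
  | zero => rw [map_zero]; exact Submodule.zero_mem _
  | add x y _ _ hx hy => rw [map_add]; exact Submodule.add_mem _ hx hy
  | smul r x _ hx => rw [hc.smul]; exact Submodule.smul_mem _ _ hx

end comparison

section tate

variable {W : WeilCohomology.{u, 0} ops} {Γ : Type} [Group Γ] {χ : Γ →* W.Kˣ}

/-- The space spanned by the Tate classes of codimension `n`. -/
def tateSpace {W : WeilCohomology.{u, 0} ops} (χ : Γ →* W.Kˣ) (A : GVar W Γ) (n : ℕ) :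
    Submodule W.K (W.H A.X) :=
  Submodule.span W.K {c | IsTateAct χ (W.gr A.X) A.act n c}

theorem slice₁_space {A B : GVar W Γ}
    {υ : Γ →* (W.H (A.X.prod B.X) ≃ₐ[W.K] W.H (A.X.prod B.X))}
    (hprod : ProductAct χ (W.map (fst A.X B.X)) (W.map (snd A.X B.X)) (W.gr A.X) A.act
      (W.gr B.X) B.act (W.gr (A.X.prod B.X)) υ) {z : B.X.Cycles}
    (hz : B.X.IsCyc B.X.dim z) {n : ℕ} {u : W.H (A.X.prod B.X)}
    (hu : u ∈ tateSpace χ (⟨A.X.prod B.X, υ⟩ : GVar W Γ) n) :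
    slice₁ W A.X B.X z u ∈ tateSpace χ A n := by
  unfold tateSpace at hu ⊢
  induction hu using Submodule.span_induction with
  | mem u hu =>
    have h := hprod n u hu
    clear hu
    induction h using Submodule.span_induction with
    | mem w hw =>
      obtain ⟨e, he, a, ha, b, hb, rfl⟩ := hw
      rw [slice₁_apply]
      by_cases h0 : n - e = 0
      · have h1 : e = n := by omega
        subst h1
        exact Submodule.smul_mem _ _ (Submodule.subset_span ha)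
      · rw [tr_mul_zero hz hb.1 (by omega), map_zero, zero_smul]
        exact Submodule.zero_mem _
    | zero => rw [map_zero]; exact Submodule.zero_mem _
    | add x y _ _ hx hy => rw [map_add]; exact Submodule.add_mem _ hx hy
    | smul r x _ hx => rw [map_smul]; exact Submodule.smul_mem _ _ hx
  | zero => rw [map_zero]; exact Submodule.zero_mem _
  | add x y _ _ hx hy => rw [map_add]; exact Submodule.add_mem _ hx hy
  | smul r x _ hx => rw [map_smul]; exact Submodule.smul_mem _ _ hx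

theorem slice₂_space {A B : GVar W Γ}
    {υ : Γ →* (W.H (A.X.prod B.X) ≃ₐ[W.K] W.H (A.X.prod B.X))}
    (hprod : ProductAct χ (W.map (fst A.X B.X)) (W.map (snd A.X B.X)) (W.gr A.X) A.act
      (W.gr B.X) B.act (W.gr (A.X.prod B.X)) υ) {z : A.X.Cycles}
    (hz : A.X.IsCyc A.X.dim z) {n : ℕ} {u : W.H (A.X.prod B.X)}
    (hu : u ∈ tateSpace χ (⟨A.X.prod B.X, υ⟩ : GVar W Γ) n) :
    slice₂ W A.X B.X z u ∈ tateSpace χ B n := by
  unfold tateSpace at hu ⊢
  induction hu using Submodule.span_induction with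
  | mem u hu =>
    have h := hprod n u hu
    clear hu
    induction h using Submodule.span_induction with
    | mem w hw =>
      obtain ⟨e, he, a, ha, b, hb, rfl⟩ := hw
      rw [slice₂_apply]
      by_cases h0 : e = 0
      · subst h0
        exact Submodule.smul_mem _ _ (Submodule.subset_span hb)
      · rw [tr_mul_zero hz ha.1 (by omega), map_zero, zero_smul]
        exact Submodule.zero_mem _
    | zero => rw [map_zero]; exact Submodule.zero_mem _
    | add x y _ _ hx hy => rw [map_add]; exact Submodule.add_mem _ hx hy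
    | smul r x _ hx => rw [map_smul]; exact Submodule.smul_mem _ _ hx
  | zero => rw [map_zero]; exact Submodule.zero_mem _
  | add x y _ _ hx hy => rw [map_add]; exact Submodule.add_mem _ hx hy
  | smul r x _ hx => rw [map_smul]; exact Submodule.smul_mem _ _ hx

theorem pull_space {A C : GVar W Γ} {f : C.X ⟶ A.X} (hf : Intertwines (W.map f) A.act C.act) {n : ℕ}
    {a : W.H A.X} (ha : a ∈ tateSpace χ A n) : W.map f a ∈ tateSpace χ C n := by
  unfold tateSpace at ha ⊢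
  induction ha using Submodule.span_induction with
  | mem a ha => exact Submodule.subset_span (pull_tate hf ha)
  | zero => rw [map_zero]; exact Submodule.zero_mem _
  | add x y _ _ hx hy => rw [map_add]; exact Submodule.add_mem _ hx hy
  | smul r x _ hx => rw [map_smul]; exact Submodule.smul_mem _ _ hx

theorem slice₁_onto {A B : GVar W Γ}
    {υ : Γ →* (W.H (A.X.prod B.X) ≃ₐ[W.K] W.H (A.X.prod B.X))}
    (h1 : Intertwines (W.map (fst A.X B.X)) A.act υ) {z : B.X.Cycles}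
    (hz : B.X.IsCyc B.X.dim z) (h0 : B.X.V.degCycle z ≠ 0) {n : ℕ} {a : W.H A.X}
    (ha : a ∈ tateSpace χ A n) :
    ∃ u ∈ tateSpace χ (⟨A.X.prod B.X, υ⟩ : GVar W Γ) n, slice₁ W A.X B.X z u = a := by
  have hne : ((B.X.V.degCycle z : ℚ) : W.K) ≠ 0 := Rat.cast_ne_zero.2 h0
  refine ⟨((B.X.V.degCycle z : ℚ) : W.K)⁻¹ • W.map (fst A.X B.X) a,
    Submodule.smul_mem _ _ (pull_space (A := A)
      (C := (⟨A.X.prod B.X, υ⟩ : GVar W Γ)) h1 ha), ?_⟩
  rw [map_smul, slice₁_pull hz, smul_smul, inv_mul_cancel₀ hne, one_smul]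

theorem slice₂_onto {A B : GVar W Γ}
    {υ : Γ →* (W.H (A.X.prod B.X) ≃ₐ[W.K] W.H (A.X.prod B.X))}
    (h2 : Intertwines (W.map (snd A.X B.X)) B.act υ) {z : A.X.Cycles}
    (hz : A.X.IsCyc A.X.dim z) (h0 : A.X.V.degCycle z ≠ 0) {n : ℕ} {b : W.H B.X}
    (hb : b ∈ tateSpace χ B n) :
    ∃ u ∈ tateSpace χ (⟨A.X.prod B.X, υ⟩ : GVar W Γ) n, slice₂ W A.X B.X z u = b := by
  have hne : ((A.X.V.degCycle z : ℚ) : W.K) ≠ 0 := Rat.cast_ne_zero.2 h0
  refine ⟨((A.X.V.degCycle z : ℚ) : W.K)⁻¹ • W.map (snd A.X B.X) b,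
    Submodule.smul_mem _ _ (pull_space (A := B)
      (C := (⟨A.X.prod B.X, υ⟩ : GVar W Γ)) h2 hb), ?_⟩
  rw [map_smul, slice₂_pull hz, smul_smul, inv_mul_cancel₀ hne, one_smul]

/-- the form of a product -/
theorem product_form {W₀ : WeilCohomology.{u, 0} ops} {c : Comparison W₀ W} (hc : IsComparison c)
    {A B : GVar W Γ} {υ : Γ →* (W.H (A.X.prod B.X) ≃ₐ[W.K] W.H (A.X.prod B.X))}
    (h1 : Intertwines (W.map (fst A.X B.X)) A.act υ)
    (h2 : Intertwines (W.map (snd A.X B.X)) B.act υ)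
    (hprod : ProductAct χ (W.map (fst A.X B.X)) (W.map (snd A.X B.X)) (W.gr A.X) A.act
      (W.gr B.X) B.act (W.gr (A.X.prod B.X)) υ) {R : ℕ → Set (W₀.H A.X)}
    {R' : ℕ → Set (W₀.H B.X)} (hR : IsFormAct χ (W.gr A.X) A.act (c.map A.X) R)
    (hR' : IsFormAct χ (W.gr B.X) B.act (c.map B.X) R') :
    IsFormAct χ (W.gr (A.X.prod B.X)) υ (c.map (A.X.prod B.X))
      fun n => {w | ∃ e ≤ n, ∃ a ∈ R e, ∃ b ∈ R' (n - e),
        w = W₀.map (fst A.X B.X) a * W₀.map (snd A.X B.X) b} := by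
  intro n
  refine le_antisymm ?_ ?_
  · refine Submodule.span_le.2 ?_
    rintro _ ⟨_, ⟨e, he, a, ha, b, hb, rfl⟩, rfl⟩
    rw [map_mul, hc.map_pull, hc.map_pull]
    have ha' : c.map A.X a ∈ Submodule.span W.K {c | IsTateAct χ (W.gr A.X) A.act e c} := by
      rw [← hR e]
      exact Submodule.subset_span ⟨a, ha, rfl⟩
    have hb' : c.map B.X b ∈ Submodule.span W.K
        {c | IsTateAct χ (W.gr B.X) B.act (n - e) c} := by
      rw [← hR' (n - e)]
      exact Submodule.subset_span ⟨b, hb, rfl⟩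
    refine mul_mem_of (A := A.X) (B := B.X) (fun s hs t ht => ?_) ha' hb'
    refine Submodule.subset_span ?_
    have h3 := mul_tate (C := (⟨A.X.prod B.X, υ⟩ : GVar W Γ))
      (pull_tate (A := A) (C := (⟨A.X.prod B.X, υ⟩ : GVar W Γ)) h1 hs)
      (pull_tate (A := B) (C := (⟨A.X.prod B.X, υ⟩ : GVar W Γ)) h2 ht)
    rwa [Nat.add_sub_cancel' he] at h3
  · refine Submodule.span_le.2 fun u hu => ?_
    refine Submodule.span_le.2 ?_ (hprod n u hu)
    rintro _ ⟨e, he, a, ha, b, hb, rfl⟩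
    have ha' : a ∈ Submodule.span W.K (c.map A.X '' R e) := by
      rw [hR e]
      exact Submodule.subset_span ha
    have hb' : b ∈ Submodule.span W.K (c.map B.X '' R' (n - e)) := by
      rw [hR' (n - e)]
      exact Submodule.subset_span hb
    refine mul_mem_of (A := A.X) (B := B.X) ?_ ha' hb'
    rintro _ ⟨s, hs, rfl⟩ _ ⟨t, ht, rfl⟩
    refine Submodule.subset_span ⟨W₀.map (fst A.X B.X) s * W₀.map (snd A.X B.X) t,
      ⟨e, he, s, hs, t, ht, rfl⟩, ?_⟩
    rw [map_mul, hc.map_pull, hc.map_pull]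

/-- the form of a factor -/
theorem factor_form {W₀ : WeilCohomology.{u, 0} ops} {c : Comparison W₀ W} {A C : GVar W Γ}
    {f : W₀.H C.X → W₀.H A.X} {g : W.H C.X →ₗ[W.K] W.H A.X}
    (h : ∀ u, c.map A.X (f u) = g (c.map C.X u))
    (h1 : ∀ n, ∀ u ∈ tateSpace χ C n, g u ∈ tateSpace χ A n)
    (h2 : ∀ n, ∀ a ∈ tateSpace χ A n, ∃ u ∈ tateSpace χ C n, g u = a)
    {R : ℕ → Set (W₀.H C.X)} (hR : IsFormAct χ (W.gr C.X) C.act (c.map C.X) R) :
    IsFormAct χ (W.gr A.X) A.act (c.map A.X) fun n => f '' R n := by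
  intro n
  have h3 : c.map A.X '' (f '' R n) = g '' (c.map C.X '' R n) := by
    rw [Set.image_image, Set.image_image]
    exact Set.image_congr fun u _ => h u
  rw [h3, ← Submodule.map_span, hR n]
  refine le_antisymm ?_ ?_
  · rintro _ ⟨u, hu, rfl⟩
    exact h1 n u hu
  · intro a ha
    obtain ⟨u, hu, hu'⟩ := h2 n a ha
    exact ⟨u, hu, hu'⟩

end tate

/-- a zero-cycle of nonzero degree -/
def Pt (A : 𝒱.Obj) : Prop := ∃ z : A.Cycles, A.IsCyc A.dim z ∧ A.V.degCycle z ≠ 0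

theorem Pt.of {W : WeilCohomology.{u, 0} ops} {A : 𝒱.Obj} (h : HasPoint W A) : Pt A := by
  obtain ⟨_, ⟨z, hz, rfl⟩, h0⟩ := h
  refine ⟨z, hz, fun h1 => h0 ?_⟩
  rw [W.tr_cl hz, h1, Rat.cast_zero]

section step

variable {W₀ : WeilCohomology.{u, 0} ops} {W : Nat.Primes → WeilCohomology.{u, 0} ops} {Γ : Type}
  [Group Γ] {c : ∀ ℓ, Comparison W₀ (W ℓ)} {χ : ∀ ℓ, Γ →* (W ℓ).Kˣ}

/-- **One product.** -/
theorem step (hc : ∀ ℓ, IsComparison (c ℓ)) {A B : Model W Γ}
    {υ : ∀ ℓ, Act (W ℓ) Γ (A.X.prod B.X)}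
    (h1 : ∀ ℓ, Compatible (fst A.X B.X) (A.act ℓ) (υ ℓ))
    (h2 : ∀ ℓ, Compatible (snd A.X B.X) (B.act ℓ) (υ ℓ)) {N : ℕ}
    (hprod : ∀ ℓ : Nat.Primes, N ≤ ℓ → AreProducts (χ ℓ) (A.at ℓ) (B.at ℓ)) (hA : Pt A.X)
    (hB : Pt B.X) :
    HasFormFrom c χ N (⟨A.X.prod B.X, υ⟩ : Model W Γ) ↔
      HasFormFrom c χ N A ∧ HasFormFrom c χ N B := by
  obtain ⟨zA, hzA, hA0⟩ := hA
  obtain ⟨zB, hzB, hB0⟩ := hB
  constructor
  · rintro ⟨R, hR⟩
    constructor
    · refine ⟨fun n => slice₁ W₀ A.X B.X zB '' R n, fun ℓ hℓ => ?_⟩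
      exact factor_form (W := W ℓ) (A := A.at ℓ) (C := (⟨A.X.prod B.X, υ ℓ⟩ : GVar (W ℓ) Γ))
        (c := c ℓ) (f := slice₁ W₀ A.X B.X zB) (g := slice₁ (W ℓ) A.X B.X zB)
        (fun u => comp_slice₁ (hc ℓ) A.X B.X zB u)
        (fun n u hu => slice₁_space (A := A.at ℓ) (B := B.at ℓ)
          (hprod ℓ hℓ (υ ℓ) (h1 ℓ) (h2 ℓ)) hzB hu)
        (fun n a ha => slice₁_onto (A := A.at ℓ) (B := B.at ℓ) (h1 ℓ) hzB hB0 ha) (hR ℓ hℓ)
    · refine ⟨fun n => slice₂ W₀ A.X B.X zA '' R n, fun ℓ hℓ => ?_⟩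
      exact factor_form (W := W ℓ) (A := B.at ℓ) (C := (⟨A.X.prod B.X, υ ℓ⟩ : GVar (W ℓ) Γ))
        (c := c ℓ) (f := slice₂ W₀ A.X B.X zA) (g := slice₂ (W ℓ) A.X B.X zA)
        (fun u => comp_slice₂ (hc ℓ) A.X B.X zA u)
        (fun n u hu => slice₂_space (A := A.at ℓ) (B := B.at ℓ)
          (hprod ℓ hℓ (υ ℓ) (h1 ℓ) (h2 ℓ)) hzA hu)
        (fun n b hb => slice₂_onto (A := A.at ℓ) (B := B.at ℓ) (h2 ℓ) hzA hA0 hb) (hR ℓ hℓ)
  · rintro ⟨⟨R, hR⟩, ⟨R', hR'⟩⟩
    exact ⟨fun n => {w | ∃ e ≤ n, ∃ a ∈ R e, ∃ b ∈ R' (n - e),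
      w = W₀.map (fst A.X B.X) a * W₀.map (snd A.X B.X) b}, fun ℓ hℓ =>
      product_form (W := W ℓ) (W₀ := W₀) (c := c ℓ) (χ := χ ℓ) (hc ℓ) (A := A.at ℓ)
        (B := B.at ℓ) (υ := υ ℓ) (h1 ℓ) (h2 ℓ) (hprod ℓ hℓ (υ ℓ) (h1 ℓ) (h2 ℓ)) (R := R)
        (R' := R') (hR ℓ hℓ) (hR' ℓ hℓ)⟩

theorem tower_at {I : Type} {X : I → Model W Γ} {Z : Model W Γ} {l : List I} {V : Model W Γ}
    (h : IsTower X Z l V) (ℓ : Nat.Primes) :
    IsProductOf (fun i => (X i).at ℓ) (Z.at ℓ) l (V.at ℓ) := by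
  induction h with
  | nil => exact .nil
  | @cons i l B V hB hV ih =>
    obtain ⟨υ, h1, h2⟩ := hV
    have hp : IsProdVar ((X i).at ℓ) (B.at ℓ)
        ((⟨(X i).X.prod B.X, υ⟩ : Model W Γ).at ℓ) :=
      IsProdVar.mk (A := (X i).at ℓ) (B := B.at ℓ) (υ ℓ) (h1 ℓ) (h2 ℓ)
    exact IsProductOf.cons ih hp

/-- **Towers.** -/
theorem form_tower (hK : ∀ ℓ, IsAlgClosed (W ℓ).K) (hc : ∀ ℓ, IsComparison (c ℓ)) {I I' : Type}
    {P : Nat.Primes → I → Set (Place Γ)}
    {E L : I → Place Γ → IntermediateField ℚ (AlgebraicClosure ℚ)} {X : I → Model W Γ}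
    {Y : I' → Model W Γ} {Z : Model W Γ} {l : List I} {l' : List I'} {N : ℕ}
    (hsys : ∀ ℓ : Nat.Primes, N ≤ ℓ → IsProductSystem (χ ℓ) (P ℓ) E L (fun i => (X i).at ℓ)
      (fun j => (Y j).at ℓ) (Z.at ℓ) l l') {B' V : Model W Γ} (hB' : IsTower Y Z l' B')
    (hV : IsTower X B' l V) :
    HasFormFrom c χ N V ↔ (∀ i ∈ l, HasFormFrom c χ N (X i)) ∧ HasFormFrom c χ N B' := by
  induction hV with
  | nil => simp
  | @cons i l B V hB hV ih =>
    obtain ⟨υ, h1, h2⟩ := hV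
    obtain ⟨q, hq, hqp⟩ := Nat.exists_infinite_primes N
    have h0 := hsys ⟨q, hqp⟩ hq
    have hprod : ∀ ℓ : Nat.Primes, N ≤ ℓ → AreProducts (χ ℓ) ((X i).at ℓ) (B.at ℓ) :=
      fun ℓ hℓ => by
        have := hK ℓ
        exact (hsys ℓ hℓ).areProducts (tower_at hB' ℓ) (tower_at hB ℓ)
    have hPX : Pt (X i).X := Pt.of (h0.point i)
    have hPB : Pt B.X := Pt.of (hasPoint_product (tower_at hB ⟨q, hqp⟩) h0.point
      (hasPoint_product (tower_at hB' ⟨q, hqp⟩) h0.point_others h0.point_base))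
    rw [step hc h1 h2 hprod hPX hPB, ih fun ℓ hℓ => (hsys ℓ hℓ).tail, List.forall_mem_cons,
      and_assoc]

theorem HasFormFrom.mono {A : Model W Γ} {N M : ℕ} (hNM : N ≤ M) (h : HasFormFrom c χ N A) :
    HasFormFrom c χ M A := by
  obtain ⟨R, hR⟩ := h
  exact ⟨R, fun ℓ hℓ => hR ℓ (hNM.trans hℓ)⟩

/-- **The main theorem.** -/
theorem main {I I' : Type} {P : Nat.Primes → I → Set (Place Γ)}
    {E L : I → Place Γ → IntermediateField ℚ (AlgebraicClosure ℚ)} {X : I → ℕ → Model W Γ}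
    {Y : I' → ℕ → Model W Γ} {Z : ℕ → Model W Γ} {l : List I} {l' : List I'}
    (h : IsFormSystem c χ P E L X Y Z l l') {B' V : ℕ → Model W Γ}
    (hB' : ∀ r, IsTower (fun j => Y j r) (Z r) l' (B' r))
    (hV : ∀ r, IsTower (fun i => X i r) (B' r) l (V r)) :
    HaveCommonForm c χ V ↔ (∀ i ∈ l, HaveCommonForm c χ (X i)) ∧ HaveCommonForm c χ B' := by
  obtain ⟨N₀, hN₀⟩ := h.system
  have key : ∀ N, N₀ ≤ N → ∀ r, (HasFormFrom c χ N (V r) ↔
      (∀ i ∈ l, HasFormFrom c χ N (X i r)) ∧ HasFormFrom c χ N (B' r)) := fun N hN r =>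
    form_tower h.closed h.comparison (fun ℓ hℓ => hN₀ ℓ (hN.trans hℓ) r) (hB' r) (hV r)
  constructor
  · rintro ⟨N, hN⟩
    have h1 : ∀ r, HasFormFrom c χ (max N₀ N) (V r) := fun r => (hN r).mono (le_max_right _ _)
    exact ⟨fun i hi => ⟨max N₀ N, fun r => ((key _ (le_max_left _ _) r).1 (h1 r)).1 i hi⟩,
      max N₀ N, fun r => ((key _ (le_max_left _ _) r).1 (h1 r)).2⟩
  · rintro ⟨hX, M, hM⟩
    have h2 : ∀ l₀ : List I, (∀ i ∈ l₀, HaveCommonForm c χ (X i)) →
        ∃ M', ∀ i ∈ l₀, ∀ r, HasFormFrom c χ M' (X i r) := by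
      intro l₀
      induction l₀ with
      | nil => exact fun _ => ⟨0, by simp⟩
      | cons j l₀ ih =>
        intro h3
        obtain ⟨M', hM'⟩ := ih fun i hi => h3 i (List.mem_cons_of_mem _ hi)
        obtain ⟨M'', hM''⟩ := h3 j List.mem_cons_self
        refine ⟨max M' M'', fun i hi r => ?_⟩
        rcases List.mem_cons.1 hi with rfl | hi
        · exact (hM'' r).mono (le_max_right _ _)
        · exact (hM' i hi r).mono (le_max_left _ _)
    obtain ⟨M', hM'⟩ := h2 l hX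
    refine ⟨max N₀ (max M M'), fun r => (key _ (le_max_left _ _) r).2 ⟨fun i hi => ?_, ?_⟩⟩
    · exact (hM' i hi r).mono ((le_max_right _ _).trans (le_max_right _ _))
    · exact (hM r).mono ((le_max_left _ _).trans (le_max_right _ _))

end step

end Pool.Agent.U173.CF
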